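import Pool.Agent.helper747_ts.Final

set_option autoImplicit false

/-!
# 3SUM is hard for circuits of any depth whose negations are slightly unreliable

The circuits read a set of integers through its presence bits and their negations.  Their gates are arbitrary
nondecreasing real functions of at most two arguments, so that with negated inputs they compute everything; sets of
`n` integers between `0` and `n ^ (1 + b)` are handled by `n ^ (1 + b + o(1))` such gates (fast Fourier transform).

We show that `n ^ (2 - c)` gates do not suffice if each negated input is stuck at `0` independently with probability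
`1 / D`, even for `D` up to `n ^ ((2 - t) / 24)`, even for randomised circuits with an arbitrarily small constant
advantage, and even if the faults do not occur on the sets without a solution.

Proof.  The starting library has distributions of positive and of negative sets that no small monotone circuit tells
apart; the negative sets have no solution even with equal elements.  A set `S` is hidden in the zeros of a random
function `g`: it is replaced by all the `2 K z + t` with `z` in `S`, `t < K` and `g (2 K z + t) = 0`.  The negated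
inputs are replaced by the constants `[g ≠ 0]`, which gives a monotone circuit in the bits of `S`.  For a positive
set, `g` outside the places that belong to `S` has the law of the faults, so that the circuit accepts if the given
circuit accepts the hidden set in spite of the faults; with `K` of order `D ^ 3` some solution survives.  For a
negative set the circuit accepts only if the given circuit without faults accepts the hidden set, which has no
solution since `t + t' < 2 K`.
-/

namespace Pool.Agent.Results.MP_13bec0_lc.UnreliableNegations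

open Finset Pool.Agent.helper747_ts

/-- `S` has at most `n` elements and they are between `0` and `n ^ e`. -/
def Input (n : ℕ) (e : ℝ) (S : Finset ℤ) : Prop :=
  S.card ≤ n ∧ ∀ z ∈ S, 0 ≤ z ∧ (z : ℝ) ≤ (n : ℝ) ^ e

/-- The probability that the set `S` is accepted by a circuit that is chosen uniformly at random from the family
`C`, without faults. -/
noncomputable def acceptance {R : Type} (C : R → LiteralCircuit) (S : Finset ℤ) : ℝ :=
  (Nat.card {ρ : R // (C ρ).Accepts S ∅} : ℝ) / Nat.card R

/-- The probability that the set `S` is accepted by a circuit that is chosen uniformly at random from the family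
`C`, if for each integer `z` from `0` to `B` the negated input of `z` is stuck at `0` independently with probability
`1 / D` (each `z` gets a random number `f z` from `0` to `D - 1`, and `0` means a fault). -/
noncomputable def faultyAcceptance {R : Type} (C : R → LiteralCircuit) (D B : ℕ) (S : Finset ℤ) : ℝ :=
  (Nat.card {v : R × (Fin (B + 1) → Fin D) // (C v.1).Accepts S (faults v.2)} : ℝ) /
    Nat.card (R × (Fin (B + 1) → Fin D))

theorem acceptance_nonneg {R : Type} (C : R → LiteralCircuit) (S : Finset ℤ) : 0 ≤ acceptance C S := by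
  unfold acceptance
  positivity

theorem faulty_le {R : Type} [Finite R] (C : R → LiteralCircuit) (D B : ℕ) (S : Finset ℤ) :
    faultyAcceptance C D B S ≤ 1 := by
  unfold faultyAcceptance
  apply div_le_one_of_le₀ _ (Nat.cast_nonneg _)
  rw [Nat.cast_le]
  exact Nat.card_le_card_of_injective (fun v => v.1) Subtype.val_injective

/-- Let `0 ≤ t < 2`, `b > 0` and `ε > 0`. For all large `n` and all `D` with `1 ≤ D ≤ n ^ ((2 - t) / 24)`: if a random
circuit with at most `n ^ t` gates accepts every set of at most `n` integers between `0` and `n ^ (1 + b)` that has a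
solution with probability at least `α`, even if each negated input is stuck at `0` independently with probability
`1 / D`, then without faults it accepts some such set that has no solution with probability at least `α - ε`. -/
theorem result (t b ε : ℝ) (ht : 0 ≤ t) (ht2 : t < 2) (hb : 0 < b) (hε : 0 < ε) :
    ∃ n0 : ℕ, ∀ n : ℕ, n0 ≤ n → ∀ D : ℕ, 1 ≤ D → (D : ℝ) ≤ (n : ℝ) ^ ((2 - t) / 24) →
      ∀ (R : Type) [Finite R] [Nonempty R] (C : R → LiteralCircuit) (α : ℝ),
        (∀ ρ, ((C ρ).s : ℝ) ≤ (n : ℝ) ^ t) →
        (∀ S, Input n (1 + b) S → HasSum S →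
          α ≤ faultyAcceptance C D ⌊(n : ℝ) ^ (1 + b)⌋₊ S) →
        ∃ S, Input n (1 + b) S ∧ ¬ HasSum S ∧ α - ε ≤ acceptance C S := by
  classical
  obtain ⟨m, hm1, hm⟩ := exists_m ε hε
  obtain ⟨a, ha, n1, hn1⟩ := sum_strong 0 (1 + t / 2) (b / 2) le_rfl (by linarith) (by linarith)
    (by linarith)
  -- `n' ^ (-a)` is small
  obtain ⟨n2, hn2⟩ : ∃ n2 : ℕ, ∀ n : ℕ, n2 ≤ n → (n : ℝ) ^ (-a) ≤ ε / 4 := by
    have h1 : Filter.Tendsto (fun n : ℕ => (n : ℝ) ^ (-a)) Filter.atTop (nhds 0) :=
      (tendsto_rpow_neg_atTop ha).comp tendsto_natCast_atTop_atTop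
    obtain ⟨n2, h2⟩ := Filter.eventually_atTop.1 (h1.eventually_le_const (by positivity : (0 : ℝ) < ε / 4))
    exact ⟨n2, h2⟩
  obtain ⟨n0, hn0⟩ := exists_params t b ht ht2 hb m (max n1 n2) hm1
  refine ⟨n0, fun n hn D hD hDn R _ _ C α hs hyes => ?_⟩
  obtain ⟨hn3, hpar⟩ := hn0 n hn
  obtain ⟨K, hK⟩ : ∃ K : ℕ, K = 2 * (D ^ 3 * m) := ⟨_, rfl⟩
  obtain ⟨hN, hpow, hrange⟩ := hpar D hD hDn K hK
  by_contra hcon
  push Not at hcon
  let _ : Fintype R := Fintype.ofFinite R
  have hx3 : (3 : ℝ) ≤ n := by exact_mod_cast hn3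
  have hx1 : (1 : ℝ) ≤ n := by linarith
  -- `α` is a probability
  have hα0 : 0 ≤ α := by
    have h1 : Input n (1 + b) ∅ := ⟨by simp, by simp⟩
    have h2 : ¬ HasSum ∅ := by
      rintro ⟨a, ha, -⟩
      exact absurd ha (notMem_empty a)
    have h3 := hcon ∅ h1 h2
    have h4 := acceptance_nonneg C ∅
    linarith
  have hα1 : α ≤ 1 := by
    have h1 : Input n (1 + b) {1, 2, 3} := by
      refine ⟨?_, ?_⟩
      · refine (Finset.card_le_three).trans hn3
      · intro z hz
        have h4 : (n : ℝ) ^ (1 : ℝ) ≤ (n : ℝ) ^ (1 + b) :=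
          Real.rpow_le_rpow_of_exponent_le hx1 (by linarith)
        rw [Real.rpow_one] at h4
        simp only [mem_insert, mem_singleton] at hz
        rcases hz with rfl | rfl | rfl
        · constructor
          · norm_num
          · push_cast; linarith
        · constructor
          · norm_num
          · push_cast; linarith
        · constructor
          · norm_num
          · push_cast; linarith
    have h2 : HasSum {1, 2, 3} :=
      ⟨1, by simp, 2, by simp, 3, by simp, by norm_num, by norm_num, by norm_num, by norm_num⟩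
    exact (hyes _ h1 h2).trans (faulty_le _ _ _ _)
  obtain ⟨B, hB⟩ : ∃ B : ℕ, B = ⌊(n : ℝ) ^ (1 + b)⌋₊ := ⟨_, rfl⟩
  rw [← hB] at hyes
  have hBle : (B : ℝ) ≤ (n : ℝ) ^ (1 + b) := by
    rw [hB]
    exact Nat.floor_le (by positivity)
  have hD0 : (0 : ℝ) < D := by exact_mod_cast hD
  have hK1 : 1 ≤ K := by
    rw [hK]
    have : 1 ≤ D ^ 3 * m := Nat.mul_pos (Nat.pow_pos (by omega)) (by omega)
    omega
  obtain ⟨n', hn'⟩ : ∃ n' : ℕ, n' = n / K := ⟨_, rfl⟩
  rw [← hn'] at hN hpow hrange
  obtain ⟨Λ, hΛ, hΛne, yes, no, hY, hNo, H⟩ := hn1 n' ((le_max_left _ _).trans hN)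
  have hδ := hn2 n' ((le_max_right _ _).trans hN)
  have hL0 : (0 : ℝ) < Fintype.card Λ := by exact_mod_cast Fintype.card_pos
  have hR0 : (0 : ℝ) < Fintype.card R := by exact_mod_cast Fintype.card_pos
  obtain ⟨N, hNdef⟩ : ∃ N : ℝ, N = (D : ℝ) ^ (B + 1) := ⟨_, rfl⟩
  have hN0 : 0 < N := by rw [hNdef]; positivity
  have hcount : (Fintype.card (Fin (B + 1) → Fin D) : ℝ) = N := by
    rw [Fintype.card_fun, Fintype.card_fin, Fintype.card_fin, hNdef]
    push_cast
    rfl
  have hcardRN : (Nat.card (R × (Fin (B + 1) → Fin D)) : ℝ) = Fintype.card R * N := by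
    rw [Nat.card_prod, Nat.card_eq_fintype_card, Nat.card_eq_fintype_card, Nat.cast_mul, hcount]
  -- hidden sets are inputs
  have hinput : ∀ (S : Finset ℤ) (g : Fin (B + 1) → Fin D), S.card ≤ n' → Input n (1 + b) (tg K S g) := by
    intro S g hS
    refine ⟨(tg_card hK1).trans ?_, fun z hz => ?_⟩
    · calc K * S.card ≤ K * n' := Nat.mul_le_mul_left _ hS
        _ ≤ n := by rw [hn']; exact Nat.mul_div_le n K
    · obtain ⟨h1, h2⟩ := tg_range hz
      refine ⟨h1, le_trans ?_ hBle⟩
      exact_mod_cast h2
  -- positive sets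
  have hpos : ∀ l : Λ, (α - ε / 4) * (Fintype.card R * N) ≤
      ∑ ρ : R, ∑ k : Fin (B + 1) → Fin D, if Acc (C ρ) K k (yes l) then (1 : ℝ) else 0 := by
    intro l
    obtain ⟨hc, hr, hsum⟩ := hY l
    have hsum' : HasSum (yes l) := hsum
    have hnn : ∀ z ∈ yes l, 0 ≤ z := fun z hz => (hr z hz).1
    have hbig : ∀ z ∈ yes l, z * (2 * K : ℕ) + (K : ℤ) ≤ B + 1 := by
      intro z hz
      obtain ⟨z', rfl⟩ := Int.eq_ofNat_of_zero_le (hnn z hz)
      have h1 : (z' : ℝ) ≤ (n' : ℝ) ^ (1 + b / 2) := by
        have h2 := (hr _ hz).2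
        push_cast at h2
        rw [add_zero] at h2
        exact h2
      have h2 : ((z' * (2 * K) + K : ℕ) : ℝ) ≤ (n : ℝ) ^ (1 + b) := by
        push_cast
        refine le_trans ?_ hrange
        have h3 : (z' : ℝ) * (2 * K) ≤ (n' : ℝ) ^ (1 + b / 2) * (2 * K) :=
          mul_le_mul_of_nonneg_right h1 (by positivity)
        linarith
      have h3 : z' * (2 * K) + K ≤ B := by
        rw [hB]
        exact Nat.le_floor h2
      have h4 : ((z' * (2 * K) + K : ℕ) : ℤ) ≤ (B : ℤ) := by exact_mod_cast h3
      push_cast at h4 ⊢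
      linarith
    have hgood := tg_yes (B := B) (D := D) (K := K) hnn (by omega) (J := D ^ 3 * m) (by omega) hsum' hbig
    rw [hNdef]
    refine avg_yes C hnn (by omega) hα0 hα1 (by linarith) ?_ ?_
    · refine hgood.trans ?_
      exact mul_le_mul_of_nonneg_right ((pow_bound hD).trans hm) (by positivity)
    · intro g hg
      have h1 := hyes _ (hinput (yes l) g hc) hg
      unfold faultyAcceptance at h1
      rw [hcardRN, le_div_iff₀ (by positivity)] at h1
      rw [← hNdef]
      exact h1
  -- negative sets
  have hneg : ∀ (l : Λ) (k : Fin (B + 1) → Fin D),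
      ∑ ρ : R, (if Acc (C ρ) K k (no l) then (1 : ℝ) else 0) ≤ (α - ε) * Fintype.card R := by
    intro l k
    obtain ⟨hc, hr, hno⟩ := hNo l
    have hnn : ∀ z ∈ no l, 0 ≤ z := fun z hz => (hr z hz).1
    have h1 := hcon _ (hinput (no l) k hc) (tg_no hno)
    unfold acceptance at h1
    rw [Nat.card_eq_fintype_card (α := R), div_lt_iff₀ hR0, card_sum] at h1
    refine le_trans (Finset.sum_le_sum fun ρ _ => ?_) h1.le
    by_cases h2 : Acc (C ρ) K k (no l)
    · rw [if_pos h2, if_pos (acc_no hnn h2)]
    · rw [if_neg h2]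
      split_ifs <;> norm_num
  -- no hidden circuit tells them apart
  have hhid : ∀ (ρ : R) (k : Fin (B + 1) → Fin D),
      ∑ l : Λ, (if Acc (C ρ) K k (yes l) then (1 : ℝ) else 0) ≤
        ∑ l : Λ, (if Acc (C ρ) K k (no l) then (1 : ℝ) else 0) + ε / 4 * Fintype.card Λ := by
    intro ρ k
    have h1 := hidden (K := K) (n := n') (t := 1 + t / 2) (a := a) yes no
      (by
        intro s T w ar op θ val o τ c1 c2 c3 c4 c5 c6
        have h2 := H s T w ar op θ val o τ c1 c2 c3 c4 c5 c6
        have e1 : ∀ S : Finset ℤ, (fun z => decide (z ∈ S)) = xS S := by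
          intro S
          funext z
          unfold xS
          congr
        have e2 : ∀ P : Λ → Prop, ∀ i1 : DecidablePred P,
            ((@Finset.filter Λ P i1 univ).card : ℝ) = (Nat.card {l : Λ // P l} : ℝ) := by
          intro P i1
          rw [Nat.card_eq_fintype_card, Fintype.card_subtype]
        rw [← e2 _ (fun _ => Classical.propDecidable _), ← e2 _ (fun _ => Classical.propDecidable _)]
        simp only [← e1]
        convert h2)
      (C ρ) k ((hs ρ).trans hpow)
    rw [card_sum, card_sum, div_add' _ _ _ hL0.ne', div_le_div_iff_of_pos_right hL0] at h1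
    refine h1.trans ?_
    have h3 := mul_le_mul_of_nonneg_right hδ hL0.le
    linarith
  -- summing up
  have hL : (Fintype.card Λ : ℝ) * ((α - ε / 4) * (Fintype.card R * N)) ≤
      ∑ l : Λ, ∑ ρ : R, ∑ k : Fin (B + 1) → Fin D, if Acc (C ρ) K k (yes l) then (1 : ℝ) else 0 := by
    have h1 := Finset.sum_le_sum (fun (l : Λ) (_ : l ∈ univ) => hpos l)
    rw [sum_const, card_univ, nsmul_eq_mul] at h1
    exact h1
  have hU : ∑ ρ : R, ∑ k : Fin (B + 1) → Fin D, ∑ l : Λ,
      (if Acc (C ρ) K k (yes l) then (1 : ℝ) else 0) ≤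
      ∑ ρ : R, ∑ k : Fin (B + 1) → Fin D, (∑ l : Λ,
        (if Acc (C ρ) K k (no l) then (1 : ℝ) else 0) + ε / 4 * Fintype.card Λ) :=
    Finset.sum_le_sum fun ρ _ => Finset.sum_le_sum fun k _ => hhid ρ k
  have hswap : ∀ F : Λ → R → (Fin (B + 1) → Fin D) → ℝ,
      ∑ l : Λ, ∑ ρ : R, ∑ k : Fin (B + 1) → Fin D, F l ρ k =
        ∑ ρ : R, ∑ k : Fin (B + 1) → Fin D, ∑ l : Λ, F l ρ k := by
    intro F
    rw [Finset.sum_comm]
    refine Finset.sum_congr rfl fun ρ _ => ?_
    rw [Finset.sum_comm]
  have hV : ∑ ρ : R, ∑ k : Fin (B + 1) → Fin D, ∑ l : Λ,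
      (if Acc (C ρ) K k (no l) then (1 : ℝ) else 0) ≤
      N * (Fintype.card Λ * ((α - ε) * Fintype.card R)) := by
    rw [Finset.sum_comm]
    have h1 : ∀ k : Fin (B + 1) → Fin D, ∑ ρ : R, ∑ l : Λ,
        (if Acc (C ρ) K k (no l) then (1 : ℝ) else 0) ≤
        Fintype.card Λ * ((α - ε) * Fintype.card R) := by
      intro k
      rw [Finset.sum_comm]
      have h2 := Finset.sum_le_sum (fun (l : Λ) (_ : l ∈ univ) => hneg l k)
      rw [sum_const, card_univ, nsmul_eq_mul] at h2
      exact h2
    have h3 := Finset.sum_le_sum (fun (k : Fin (B + 1) → Fin D) (_ : k ∈ univ) => h1 k)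
    rw [sum_const, card_univ, nsmul_eq_mul, hcount] at h3
    exact h3
  rw [hswap] at hL
  have h1 := hL.trans hU
  simp only [Finset.sum_add_distrib, sum_const, card_univ, nsmul_eq_mul] at h1
  rw [hcount] at h1
  have h2 : (Fintype.card Λ : ℝ) * ((α - ε / 4) * (Fintype.card R * N)) ≤
      N * (Fintype.card Λ * ((α - ε) * Fintype.card R)) +
        Fintype.card R * (N * (ε / 4 * Fintype.card Λ)) := by linarith
  have h3 : (0 : ℝ) < Fintype.card Λ * (Fintype.card R * N) := by positivity
  have h4 : (Fintype.card Λ : ℝ) * (Fintype.card R * N) * (ε / 2) ≤ 0 := by nlinarith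
  nlinarith

end Pool.Agent.Results.MP_13bec0_lc.UnreliableNegations
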